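import Mathlib
import Pool.Agent.X207.JL5

/-!
The nonassociative `L⁴`-space of the JBW*-algebra `M₂(ℂ)` depends on the faithful state, even up to
isometric isomorphism.
-/

namespace Pool.Agent.Results.MP_09632a_an.JordanLpDependsOnState
open Complex Complex.HadamardThreeLines
open scoped Matrix Matrix.Norms.L2Operator

/-- the JBW*-algebra of complex `2 × 2` matrices, with the operator norm and the conjugate transpose -/
abbrev M2 : Type := Matrix (Fin 2) (Fin 2) ℂ

/-- the Jordan product `x ∘ y = (xy + yx) / 2` -/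
noncomputable def jordan (x y : M2) : M2 := (1 / 2 : ℂ) • (x * y + y * x)

/-- the operator norm of `x` is at most `C` (norm of `M₂(ℂ)`) -/
def NormLe (x : M2) (C : ℝ) : Prop := ‖x‖ ≤ C

/-- the functional `y ↦ φ (x ∘ y)` has norm at most `C` (norm of the predual) -/
def DualNormLe (φ : M2 →ₗ[ℂ] ℂ) (x : M2) (C : ℝ) : Prop := ∀ y : M2, ‖φ (jordan x y)‖ ≤ C * ‖y‖

/-- `φ` is a faithful state: `φ 1 = 1` and `φ (x* x) > 0` for every nonzero `x` -/
def FaithfulState (φ : M2 →ₗ[ℂ] ℂ) : Prop :=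
  φ 1 = 1 ∧ ∀ x : M2, x ≠ 0 → (φ (xᴴ * x)).im = 0 ∧ 0 < (φ (xᴴ * x)).re

/-- `F` is continuous on the closed strip `0 ≤ Re z ≤ 1`, analytic in its interior and bounded -/
def StripFunction (F : ℂ → M2) : Prop :=
  DiffContOnCl ℂ F (verticalStrip 0 1) ∧ ∃ B : ℝ, ∀ z ∈ verticalClosedStrip 0 1, NormLe (F z) B

/-- the norm of `x` in `L^p(M₂(ℂ), φ)`, the complex interpolation space of parameter `1 / p`
between `M₂(ℂ)` and its predual: the infimum of the `C ≥ 0` for which there is a strip function `F`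
with `F (1 / p) = x` whose values have norm at most `C` on the line `Re z = 0`, and norm at most `C`
in the predual on the line `Re z = 1` -/
noncomputable def LpNorm (p : ℝ) (φ : M2 →ₗ[ℂ] ℂ) (x : M2) : ℝ :=
  sInf {C | 0 ≤ C ∧ ∃ F : ℂ → M2, StripFunction F ∧ (∀ t : ℝ, NormLe (F (t * I)) C) ∧
    (∀ t : ℝ, DualNormLe φ (F (1 + t * I)) C) ∧ F ((1 / p : ℝ) : ℂ) = x}

/-- there are faithful states `φ`, `ψ` on `M₂(ℂ)` such that `L⁴(M₂(ℂ), φ)` and `L⁴(M₂(ℂ), ψ)` are not
isometrically isomorphic -/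
theorem result : ∃ φ ψ : M2 →ₗ[ℂ] ℂ, FaithfulState φ ∧ FaithfulState ψ ∧
    ¬ ∃ T : M2 ≃ₗ[ℂ] M2, ∀ x, LpNorm 4 φ (T x) = LpNorm 4 ψ x := by
  have hfs : ∀ a b : ℝ, 0 < a → 0 < b → a + b = 1 → FaithfulState (Pool.Agent.X207.JL.st a b) := by
    intro a b ha hb hab
    refine ⟨?_, fun x hx => ?_⟩
    · rw [Pool.Agent.X207.JL.st_apply]
      simp only [Matrix.one_apply_eq, mul_one]
      rw [← Complex.ofReal_add, hab, Complex.ofReal_one]
    · have e : Pool.Agent.X207.JL.st a b (xᴴ * x) =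
          ((a * (normSq (x 0 0) + normSq (x 1 0)) + b * (normSq (x 0 1) + normSq (x 1 1)) : ℝ) : ℂ) := by
        rw [Pool.Agent.X207.JL.st_apply]
        simp only [Matrix.mul_apply, Fin.sum_univ_two, Matrix.conjTranspose_apply, RCLike.star_def]
        rw [← Complex.normSq_eq_conj_mul_self, ← Complex.normSq_eq_conj_mul_self,
          ← Complex.normSq_eq_conj_mul_self, ← Complex.normSq_eq_conj_mul_self]
        push_cast; ring
      rw [e]
      refine ⟨Complex.ofReal_im _, ?_⟩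
      rw [Complex.ofReal_re]
      have h00 := normSq_nonneg (x 0 0)
      have h01 := normSq_nonneg (x 0 1)
      have h10 := normSq_nonneg (x 1 0)
      have h11 := normSq_nonneg (x 1 1)
      by_contra hneg
      have k1 : 0 ≤ a * (normSq (x 0 0) + normSq (x 1 0)) := by positivity
      have k2 : 0 ≤ b * (normSq (x 0 1) + normSq (x 1 1)) := by positivity
      have k3 : a * (normSq (x 0 0) + normSq (x 1 0)) = 0 := by linarith
      have k4 : b * (normSq (x 0 1) + normSq (x 1 1)) = 0 := by linarith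
      have k5 := (mul_eq_zero.mp k3).resolve_left ha.ne'
      have k6 := (mul_eq_zero.mp k4).resolve_left hb.ne'
      apply hx
      ext i j
      fin_cases i <;> fin_cases j
      · exact normSq_eq_zero.mp (by show normSq (x 0 0) = 0; linarith)
      · exact normSq_eq_zero.mp (by show normSq (x 0 1) = 0; linarith)
      · exact normSq_eq_zero.mp (by show normSq (x 1 0) = 0; linarith)
      · exact normSq_eq_zero.mp (by show normSq (x 1 1) = 0; linarith)
  have hLp : ∀ (φ : M2 →ₗ[ℂ] ℂ) (x : M2), LpNorm 4 φ x = Pool.Agent.X207.JL.LpNorm 4 φ x := by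
    intro φ x
    unfold LpNorm Pool.Agent.X207.JL.LpNorm Pool.Agent.X207.JL.Adm StripFunction NormLe DualNormLe
    congr 1
    ext C
    constructor
    · rintro ⟨h0, F, ⟨h1, h2⟩, h3, h4, h5⟩
      exact ⟨h0, F, h1, h2, h3, h4, h5⟩
    · rintro ⟨h0, F, h1, h2, h3, h4, h5⟩
      exact ⟨h0, F, ⟨h1, h2⟩, h3, h4, h5⟩
  refine ⟨Pool.Agent.X207.JL.st (1 / 2) (1 / 2), Pool.Agent.X207.JL.st (16 / 17) (1 / 17),
    hfs _ _ (by norm_num) (by norm_num) (by norm_num), hfs _ _ (by norm_num) (by norm_num) (by norm_num), ?_⟩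
  rintro ⟨T, hT⟩
  apply Pool.Agent.X207.JL.main (T : M2 →ₗ[ℂ] M2)
  intro x
  have := hT x
  rw [hLp, hLp] at this
  exact this

end Pool.Agent.Results.MP_09632a_an.JordanLpDependsOnState
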